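import Pool.Agent.H33.SMS.Targets

/-!
# MP_ec36a5_nt, row LAR (board sms): the factors are positive for large `n`
-/

set_option autoImplicit false

namespace Pool.Agent.H79.SMS

open Pool.Agent.H33.SMS

theorem alt (a : ℕ → ℤ) (m : ℕ) : ∀ c : ℕ, (∀ i, c ≤ i → i < c + (m + 1) → 0 < a i) →
    (∀ i, c ≤ i → i + 1 < c + (m + 1) → a (i + 1) < a i) →
    0 < ∑ i ∈ Finset.range (m + 1), (-1) ^ i * a (c + i) ∧
      ∑ i ∈ Finset.range (m + 1), (-1) ^ i * a (c + i) ≤ a c := by
  induction m with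
  | zero =>
    intro c h1 _
    simp only [zero_add, Finset.range_one, Finset.sum_singleton, pow_zero, one_mul, add_zero]
    exact ⟨h1 c le_rfl (by omega), le_rfl⟩
  | succ m ih =>
    intro c h1 h2
    obtain ⟨h3, h4⟩ := ih (c + 1) (fun i hi hi' => h1 i (by omega) (by omega))
      (fun i hi hi' => h2 i (by omega) (by omega))
    have h5 : a (c + 1) < a c := h2 c le_rfl (by omega)
    have e : ∑ i ∈ Finset.range (m + 1 + 1), (-1) ^ i * a (c + i) =
        a c - ∑ i ∈ Finset.range (m + 1), (-1) ^ i * a (c + 1 + i) := by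
      rw [Finset.sum_range_succ', pow_zero, one_mul, add_zero, add_comm, sub_eq_add_neg,
        ← Finset.sum_neg_distrib]
      congr 1
      refine Finset.sum_congr rfl fun i _ => ?_
      rw [pow_succ, show c + (i + 1) = c + 1 + i by ring]
      ring
    rw [e]
    constructor <;> linarith

theorem step (s n k m i : ℕ) (hn : s ^ (k + 3) ≤ n) (him : m + i + 2 = s) :
    (i + 2) ^ k * n.choose m < (i + 1) ^ k * n.choose (m + 1) := by
  have hs : 2 ≤ s := by omega
  have h1 : n.choose (m + 1) * (m + 1) = n.choose m * (n - m) := Nat.choose_succ_right_eq n m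
  have hsk : 0 < s ^ k := pow_pos (by omega) k
  have h2 : s ^ (k + 3) = s ^ k * s ^ 3 := by ring
  have h3 : s ^ k * (s + s) ≤ s ^ (k + 3) := by
    rw [h2]
    refine Nat.mul_le_mul_left _ ?_
    nlinarith [Nat.mul_le_mul hs hs, Nat.mul_le_mul (Nat.mul_le_mul hs hs) (le_refl s)]
  have h4 : s ≤ s ^ k * s := Nat.le_mul_of_pos_left _ hsk
  have h5 : s ^ k * s < n - m := by
    have : s ^ k * s + s ≤ n := by nlinarith
    omega
  have hmn : m ≤ n := by
    have : s ^ k * s + s ≤ n := by nlinarith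
    omega
  have hc : 0 < n.choose m := Nat.choose_pos hmn
  have h6 : (i + 2) ^ k ≤ s ^ k := Nat.pow_le_pow_left (by omega) k
  have h7 : 1 ≤ (i + 1) ^ k := Nat.one_le_pow _ _ (by omega)
  have h8 : (m + 1) * ((i + 2) ^ k * n.choose m) < (m + 1) * ((i + 1) ^ k * n.choose (m + 1)) := by
    calc (m + 1) * ((i + 2) ^ k * n.choose m)
        ≤ s * (s ^ k * n.choose m) :=
          Nat.mul_le_mul (by omega) (Nat.mul_le_mul_right _ h6)
      _ = s ^ k * s * n.choose m := by ring
      _ < (n - m) * n.choose m := Nat.mul_lt_mul_of_pos_right h5 hc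
      _ = n.choose (m + 1) * (m + 1) := by rw [h1]; ring
      _ = 1 * (n.choose (m + 1) * (m + 1)) := by ring
      _ ≤ (i + 1) ^ k * (n.choose (m + 1) * (m + 1)) := Nat.mul_le_mul_right _ h7
      _ = _ := by ring
  exact Nat.lt_of_mul_lt_mul_left h8

theorem pf_LAR : T_LAR := by
  intro s hs n k hn
  unfold G
  obtain ⟨m, rfl⟩ : ∃ m, s = m + 1 := ⟨s - 1, by omega⟩
  have hsn : m + 1 ≤ n := by
    refine le_trans ?_ hn
    exact Nat.le_self_pow (by omega) (m + 1)
  have h := alt (fun i => ((i : ℤ) + 1) ^ k * (n.choose (m + 1 - 1 - i) : ℤ)) m 0 ?_ ?_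
  · have h1 := h.1
    simp only [zero_add] at h1
    calc (0 : ℤ) < _ := h1
      _ = _ := by
        refine Finset.sum_congr rfl fun i _ => ?_
        ring
  · intro i _ hi
    have h1 : 0 < n.choose (m + 1 - 1 - i) := Nat.choose_pos (by omega)
    have h2 : (0 : ℤ) < n.choose (m + 1 - 1 - i) := by exact_mod_cast h1
    positivity
  · intro i _ hi
    have h1 := step (m + 1) n k (m - 1 - i) i hn (by omega)
    have e1 : m + 1 - 1 - (i + 1) = m - 1 - i := by omega
    have e2 : m + 1 - 1 - i = m - 1 - i + 1 := by omega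
    rw [e1, e2]
    have h2 : (((i + 2) ^ k * n.choose (m - 1 - i) : ℕ) : ℤ) <
        (((i + 1) ^ k * n.choose (m - 1 - i + 1) : ℕ) : ℤ) := by exact_mod_cast h1
    push_cast at h2 ⊢
    have e3 : ((i : ℤ) + 1 + 1) = (i : ℤ) + 2 := by ring
    rw [e3]
    exact h2

end Pool.Agent.H79.SMS
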